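import Mathlib

open MeasureTheory Set

namespace Pool.Agent.BHFrac

/-- A loopless multigraph with vertex type `V` and edge type `E`. -/
structure MGraph (V E : Type*) where
  fst : E → V
  snd : E → V
  ne : ∀ e, fst e ≠ snd e

variable {V E : Type*}

/-- The edge `e` joins `u` and `v`. -/
def MGraph.Joins (G : MGraph V E) (e : E) (u v : V) : Prop :=
  (G.fst e = u ∧ G.snd e = v) ∨ (G.fst e = v ∧ G.snd e = u)

/-- A walk from `u` to `v`, as the list of its steps (edge, next vertex). -/
def MGraph.IsWalk (G : MGraph V E) : V → List (E × V) → V → Prop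
  | u, [], v => u = v
  | u, p :: r, v => G.Joins p.1 u p.2 ∧ G.IsWalk p.2 r v

/-- A path: a walk that repeats no vertex. -/
def MGraph.IsPath (G : MGraph V E) (u : V) (r : List (E × V)) (v : V) : Prop :=
  G.IsWalk u r v ∧ (u :: r.map Prod.snd).Nodup

/-- `(W, F)` is an `s`-`t` disconnecting pair. -/
def MGraph.Disc (G : MGraph V E) (s t : V) (W : Finset V) (F : Finset E) : Prop :=
  s ∉ W ∧ t ∉ W ∧ ∀ r, G.IsPath s r t → (∃ p ∈ r, p.2 ∈ W) ∨ (∃ p ∈ r, p.1 ∈ F)

/-- `(k, l)` is a connectivity pair for `s` and `t`. -/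
def MGraph.ConnPair (G : MGraph V E) (s t : V) (k l : ℕ) : Prop :=
  (∃ W F, G.Disc s t W F ∧ W.card = k ∧ F.card = l) ∧
    ∀ W F, G.Disc s t W F → W.card ≤ k → F.card ≤ l → k + l ≤ W.card + F.card

theorem visits (G : MGraph V E) (v : V) (e : E) (hv : G.fst e = v ∨ G.snd e = v) :
    ∀ (r : List (E × V)) (u t : V), G.IsWalk u r t → (∃ p ∈ r, p.1 = e) →
      u = v ∨ ∃ q ∈ r, q.2 = v := by
  intro r
  induction r with
  | nil => intro u t _ h; obtain ⟨p, hp, _⟩ := h; simp at hp
  | cons a r ih =>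
    intro u t hw h
    obtain ⟨hj, hw'⟩ := hw
    obtain ⟨p, hp, hpe⟩ := h
    rcases List.mem_cons.1 hp with h1 | h1
    · subst h1
      rw [hpe] at hj
      rcases hj with ⟨h2, h3⟩ | ⟨h2, h3⟩ <;> rcases hv with h4 | h4
      · left; rw [← h2, h4]
      · right; exact ⟨p, by simp, by rw [← h3, h4]⟩
      · right; exact ⟨p, by simp, by rw [← h2, h4]⟩
      · left; rw [← h3, h4]
    · rcases ih a.2 t hw' ⟨p, h1, hpe⟩ with h5 | ⟨q, hq, h5⟩
      · right; exact ⟨a, by simp, h5⟩
      · right; exact ⟨q, by simp [hq], h5⟩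

theorem mixed [DecidableEq V] [DecidableEq E] (G : MGraph V E) (s t : V) (hst : s ≠ t) (k l : ℕ)
    (h : G.ConnPair s t k l) :
    ∀ (n : ℕ) (W : Finset V) (F : Finset E), F.card = n → G.Disc s t W F → W.card ≤ k →
      k + l ≤ W.card + F.card := by
  obtain ⟨⟨W0, F0, hd0, hW0, hF0⟩, h2⟩ := h
  intro n
  induction n with
  | zero =>
    intro W F hF hd hW
    exact h2 W F hd hW (by omega)
  | succ n ih =>
    intro W F hF hd hW
    by_cases hFl : F.card ≤ l
    · exact h2 W F hd hW hFl
    push Not at hFl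
    by_cases hWk : W.card = k
    · omega
    have hWk' : W.card + 1 ≤ k := by omega
    -- an edge of F not in F0
    obtain ⟨e, heF, heF0⟩ : ∃ e ∈ F, e ∉ F0 := by
      by_contra hcon
      push Not at hcon
      have := Finset.card_le_card (show F ⊆ F0 from hcon)
      omega
    have hnot : ¬ G.Joins e s t := by
      intro hj
      have hp : G.IsPath s [(e, t)] t := by
        refine ⟨⟨hj, rfl⟩, ?_⟩
        simp [hst]
      rcases hd0.2.2 _ hp with ⟨p, hp1, hp2⟩ | ⟨p, hp1, hp2⟩
      · simp only [List.mem_singleton] at hp1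
        subst hp1
        exact hd0.2.1 hp2
      · simp only [List.mem_singleton] at hp1
        subst hp1
        exact heF0 hp2
    obtain ⟨v, hv, hvs, hvt⟩ : ∃ v, (G.fst e = v ∨ G.snd e = v) ∧ v ≠ s ∧ v ≠ t := by
      by_contra hcon
      push Not at hcon
      have a1 := hcon (G.fst e) (Or.inl rfl)
      have a2 := hcon (G.snd e) (Or.inr rfl)
      have hne := G.ne e
      apply hnot
      by_cases b1 : G.fst e = s
      · left
        refine ⟨b1, a2 ?_⟩
        intro h'; exact hne (b1.trans h'.symm)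
      · right
        have c1 := a1 b1
        refine ⟨c1, ?_⟩
        by_contra b2
        exact hne (c1.trans (a2 b2).symm)
    have hd' : G.Disc s t (insert v W) (F.erase e) := by
      refine ⟨?_, ?_, ?_⟩
      · simp only [Finset.mem_insert, not_or]; exact ⟨fun h' => hvs h'.symm, hd.1⟩
      · simp only [Finset.mem_insert, not_or]; exact ⟨fun h' => hvt h'.symm, hd.2.1⟩
      · intro r hr
        by_cases hu : ∃ p ∈ r, p.1 = e
        · rcases visits G v e hv r s t hr.1 hu with h5 | ⟨q, hq, h5⟩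
          · exact absurd h5.symm hvs
          · left; exact ⟨q, hq, by rw [h5]; exact Finset.mem_insert_self v W⟩
        · rcases hd.2.2 r hr with ⟨p, hp, hpW⟩ | ⟨p, hp, hpF⟩
          · left; exact ⟨p, hp, Finset.mem_insert_of_mem hpW⟩
          · right
            refine ⟨p, hp, Finset.mem_erase.2 ⟨?_, hpF⟩⟩
            intro h6; exact hu ⟨p, hp, h6⟩
    have hc1 : (F.erase e).card = n := by rw [Finset.card_erase_of_mem heF]; omega
    have hc2 : (insert v W).card ≤ W.card + 1 := Finset.card_insert_le v W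
    have := ih (insert v W) (F.erase e) hc1 hd' (by omega)
    omega

theorem suffix_walk (G : MGraph V E) (v t : V) :
    ∀ (r : List (E × V)) (u : V), G.IsPath u r t → v ∈ u :: r.map Prod.snd →
      ∃ q : List (E × V), q.Sublist r ∧ G.IsPath v q t := by
  intro r
  induction r with
  | nil =>
    intro u hw hv
    simp at hv
    subst hv
    exact ⟨[], List.Sublist.refl _, hw⟩
  | cons a r ih =>
    intro u hw hv
    rcases List.mem_cons.1 hv with h1 | h1
    · subst h1; exact ⟨a :: r, List.Sublist.refl _, hw⟩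
    · have hw2 : G.IsPath a.2 r t := by
        refine ⟨hw.1.2, ?_⟩
        have := hw.2
        simp only [List.map_cons] at this
        exact (List.nodup_cons.1 this).2
      obtain ⟨q, hq, hq'⟩ := ih a.2 hw2 (by simpa using h1)
      exact ⟨q, hq.trans (List.sublist_cons_self a r), hq'⟩

theorem toPath (G : MGraph V E) (t : V) :
    ∀ (r : List (E × V)) (u : V), G.IsWalk u r t →
      ∃ q : List (E × V), q.Sublist r ∧ G.IsPath u q t := by
  classical
  intro r
  induction r with
  | nil => intro u hw; exact ⟨[], List.Sublist.refl _, hw, by simp⟩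
  | cons a r ih =>
    intro u hw
    obtain ⟨q, hq, hq'⟩ := ih a.2 hw.2
    by_cases hu : u ∈ a.2 :: q.map Prod.snd
    · obtain ⟨q2, hs, hp⟩ := suffix_walk G u t q a.2 hq' hu
      exact ⟨q2, (hs.trans hq).trans (List.sublist_cons_self a r), hp⟩
    · refine ⟨a :: q, hq.cons_cons a, ⟨hw.1, hq'.1⟩, ?_⟩
      simp only [List.map_cons]
      exact List.nodup_cons.2 ⟨hu, hq'.2⟩

theorem walk_append (G : MGraph V E) (e : E) (x y : V) (hj : G.Joins e x y) :
    ∀ (r : List (E × V)) (u : V), G.IsWalk u r x → G.IsWalk u (r ++ [(e, y)]) y := by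
  intro r
  induction r with
  | nil => intro u hw; rw [show u = x from hw]; exact ⟨hj, rfl⟩
  | cons a r ih => intro u hw; exact ⟨hw.1, ih a.2 hw.2⟩

/-- Length of a list of steps for edge lengths `z` and vertex lengths `w`. -/
def len (z : E → ℝ) (w : V → ℝ) (r : List (E × V)) : ℝ := (r.map (fun p => z p.1 + w p.2)).sum

theorem exists_cross (G : MGraph V E) (ψ : V → ℝ) (τ : ℝ) (t : V) (ht : τ < ψ t) :
    ∀ (r : List (E × V)) (u : V), G.IsWalk u r t → ψ u ≤ τ →
      ∃ p ∈ r, ∃ x, G.Joins p.1 x p.2 ∧ ψ x ≤ τ ∧ τ < ψ p.2 := by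
  intro r
  induction r with
  | nil => intro u hw hu; rw [show u = t from hw] at hu; exact absurd ht (not_lt.2 hu)
  | cons a r ih =>
    intro u hw hu
    by_cases h1 : τ < ψ a.2
    · exact ⟨a, by simp, u, hw.1, hu, h1⟩
    · obtain ⟨p, hp, hx⟩ := ih a.2 hw.2 (not_lt.1 h1)
      exact ⟨p, by simp [hp], hx⟩

end Pool.Agent.BHFrac
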