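import Mathlib

open MeasureTheory Set

namespace Pool.Agent.BHFrac

/-- integral of an indicator of a measurable set over `[0, β)` -/
theorem int_ind (β : ℝ) (A : Set ℝ) (hA : MeasurableSet A) :
    Integrable (A.indicator (fun _ => (1:ℝ))) (volume.restrict (Ico 0 β)) := by
  have : IsFiniteMeasure (volume.restrict (Ico (0:ℝ) β)) := by
    constructor
    simp
  exact (integrable_const (1:ℝ)).indicator hA

theorem int_ind_val (β : ℝ) (A : Set ℝ) (hA : MeasurableSet A) :
    ∫ τ, A.indicator (fun _ => (1:ℝ)) τ ∂(volume.restrict (Ico 0 β)) =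
      (volume.restrict (Ico (0:ℝ) β)).real A := by
  rw [integral_indicator hA]
  simp

/-- A general averaging lemma. -/
theorem average {ι κ : Type*} [Fintype ι] [Fintype κ] (β : ℝ) (hβ : 0 ≤ β)
    (A : ι → Set ℝ) (B : κ → Set ℝ) (hA : ∀ i, MeasurableSet (A i)) (hB : ∀ i, MeasurableSet (B i))
    (w : ι → ℝ) (z : κ → ℝ)
    (hw : ∀ i, (volume.restrict (Ico (0:ℝ) β)).real (A i) ≤ w i)
    (hz : ∀ i, (volume.restrict (Ico (0:ℝ) β)).real (B i) ≤ z i)
    (I : Set ℝ) (hI : MeasurableSet I) (p q x y : ℝ) (hx : 0 ≤ x) (hy : 0 ≤ y)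
    (h : ∀ τ ∈ Ico (0:ℝ) β, p + q * I.indicator (fun _ => (1:ℝ)) τ ≤
      x * ∑ i, (A i).indicator (fun _ => (1:ℝ)) τ + y * ∑ i, (B i).indicator (fun _ => (1:ℝ)) τ) :
    p * β + q * (volume.restrict (Ico (0:ℝ) β)).real I ≤ x * ∑ i, w i + y * ∑ i, z i := by
  have hfin : IsFiniteMeasure (volume.restrict (Ico (0:ℝ) β)) := by
    constructor
    simp
  have i1 : Integrable (fun τ => p + q * I.indicator (fun _ => (1:ℝ)) τ)
      (volume.restrict (Ico (0:ℝ) β)) :=
    (integrable_const p).add ((int_ind β I hI).const_mul q)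
  have iA : Integrable (fun τ => ∑ i, (A i).indicator (fun _ => (1:ℝ)) τ)
      (volume.restrict (Ico (0:ℝ) β)) := integrable_finsetSum _ (fun i _ => int_ind β (A i) (hA i))
  have iB : Integrable (fun τ => ∑ i, (B i).indicator (fun _ => (1:ℝ)) τ)
      (volume.restrict (Ico (0:ℝ) β)) := integrable_finsetSum _ (fun i _ => int_ind β (B i) (hB i))
  have i2 : Integrable (fun τ => x * ∑ i, (A i).indicator (fun _ => (1:ℝ)) τ +
      y * ∑ i, (B i).indicator (fun _ => (1:ℝ)) τ) (volume.restrict (Ico (0:ℝ) β)) :=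
    (iA.const_mul x).add (iB.const_mul y)
  have hmono := setIntegral_mono_on (s := Ico (0:ℝ) β) (μ := volume) i1 i2 measurableSet_Ico h
  have e1 : ∫ τ in Ico (0:ℝ) β, (p + q * I.indicator (fun _ => (1:ℝ)) τ) =
      p * β + q * (volume.restrict (Ico (0:ℝ) β)).real I := by
    rw [integral_add (integrable_const p) ((int_ind β I hI).const_mul q)]
    rw [integral_const_mul, int_ind_val β I hI]
    simp [Measure.real, hβ]
    ring
  have e2 : ∫ τ in Ico (0:ℝ) β, (x * ∑ i, (A i).indicator (fun _ => (1:ℝ)) τ +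
      y * ∑ i, (B i).indicator (fun _ => (1:ℝ)) τ) =
      x * ∑ i, (volume.restrict (Ico (0:ℝ) β)).real (A i) +
      y * ∑ i, (volume.restrict (Ico (0:ℝ) β)).real (B i) := by
    rw [integral_add (iA.const_mul x) (iB.const_mul y)]
    rw [integral_const_mul, integral_const_mul]
    rw [integral_finsetSum _ (fun i _ => int_ind β (A i) (hA i))]
    rw [integral_finsetSum _ (fun i _ => int_ind β (B i) (hB i))]
    simp_rw [fun i => int_ind_val β (A i) (hA i), fun i => int_ind_val β (B i) (hB i)]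
  rw [e1, e2] at hmono
  have s1 := Finset.sum_le_sum (s := Finset.univ) (fun i _ => hw i)
  have s2 := Finset.sum_le_sum (s := Finset.univ) (fun i _ => hz i)
  nlinarith [mul_le_mul_of_nonneg_left s1 hx, mul_le_mul_of_nonneg_left s2 hy]

theorem vol_Ico (β a b c : ℝ) (h : b - a ≤ c) (hc : 0 ≤ c) :
    (volume.restrict (Ico (0:ℝ) β)).real (Ico a b) ≤ c := by
  have h1 : (volume.restrict (Ico (0:ℝ) β)).real (Ico a b) ≤ (volume : Measure ℝ).real (Ico a b) := by
    apply ENNReal.toReal_mono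
    · simp
    · exact Measure.restrict_apply_le _ _
  refine h1.trans ?_
  rw [Real.volume_real_Ico]
  exact max_le h hc

end Pool.Agent.BHFrac
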