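import Pool.Agent.BHFrac.Part1
import Pool.Agent.BHFrac.Part2

open MeasureTheory Set

namespace Pool.Agent.BHFrac

variable {V E : Type*}

theorem len_nonneg (z : E → ℝ) (w : V → ℝ) (hz : ∀ e, 0 ≤ z e) (hw : ∀ v, 0 ≤ w v)
    (r : List (E × V)) : 0 ≤ len z w r := by
  apply List.sum_nonneg
  intro x hx
  obtain ⟨p, _, rfl⟩ := List.mem_map.1 hx
  exact add_nonneg (hz _) (hw _)

theorem len_sublist (z : E → ℝ) (w : V → ℝ) (hz : ∀ e, 0 ≤ z e) (hw : ∀ v, 0 ≤ w v)
    {q r : List (E × V)} (h : q.Sublist r) : len z w q ≤ len z w r := by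
  apply List.Sublist.sum_le_sum (h.map _)
  intro x hx
  obtain ⟨p, _, rfl⟩ := List.mem_map.1 hx
  exact add_nonneg (hz _) (hw _)

/-- Truncated distance from `s`. -/
noncomputable def psi (G : MGraph V E) (s : V) (z : E → ℝ) (w : V → ℝ) (β : ℝ) (v : V) : ℝ :=
  sInf (insert β {x | ∃ r, G.IsWalk s r v ∧ len z w r = x})

section
variable (G : MGraph V E) (s t : V) (z : E → ℝ) (w : V → ℝ) (β : ℝ)
  (hz : ∀ e, 0 ≤ z e) (hw : ∀ v, 0 ≤ w v) (hβ : 0 ≤ β)
include hz hw hβ

theorem psi_bdd (v : V) :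
    BddBelow (insert β {x | ∃ r, G.IsWalk s r v ∧ len z w r = x}) := by
  refine ⟨0, ?_⟩
  rintro x (rfl | ⟨r, _, rfl⟩)
  · exact hβ
  · exact len_nonneg z w hz hw r

theorem psi_nonneg (v : V) : 0 ≤ psi G s z w β v := by
  apply le_csInf ⟨β, by simp⟩
  rintro x (rfl | ⟨r, _, rfl⟩)
  · exact hβ
  · exact len_nonneg z w hz hw r

theorem psi_le_beta (v : V) : psi G s z w β v ≤ β :=
  csInf_le (psi_bdd G s z w β hz hw hβ v) (by simp)

theorem psi_le_len (v : V) (r : List (E × V)) (hr : G.IsWalk s r v) :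
    psi G s z w β v ≤ len z w r :=
  csInf_le (psi_bdd G s z w β hz hw hβ v) (Or.inr ⟨r, hr, rfl⟩)

theorem psi_s : psi G s z w β s = 0 :=
  le_antisymm (by simpa [len] using psi_le_len G s z w β hz hw hβ s [] rfl)
    (psi_nonneg G s z w β hz hw hβ s)

theorem psi_t (hp : ∀ r, G.IsPath s r t → β ≤ len z w r) : psi G s z w β t = β := by
  apply le_antisymm (psi_le_beta G s z w β hz hw hβ t)
  apply le_csInf ⟨β, by simp⟩
  rintro x (rfl | ⟨r, hr, rfl⟩)
  · exact le_refl _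
  · obtain ⟨q, hq, hq'⟩ := toPath G t r s hr
    exact (hp q hq').trans (len_sublist z w hz hw hq)

theorem psi_step (e : E) (x y : V) (hj : G.Joins e x y) :
    psi G s z w β y ≤ psi G s z w β x + z e + w y := by
  have : psi G s z w β y - z e - w y ≤ psi G s z w β x := by
    apply le_csInf ⟨β, by simp⟩
    rintro a (rfl | ⟨r, hr, rfl⟩)
    · have h1 := psi_le_beta G s z w a hz hw hβ y
      have h2 := hz e
      have h3 := hw y
      linarith
    · have h1 := psi_le_len G s z w β hz hw hβ y (r ++ [(e, y)]) (walk_append G e x y hj r s hr)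
      have h2 : len z w (r ++ [(e, y)]) = len z w r + (z e + w y) := by
        simp [len]
      linarith
  linarith

end

/-- The vertex interval. -/
def VA (ψ w : V → ℝ) (v : V) : Set ℝ := Ico (ψ v - w v) (ψ v)

/-- The edge set of thresholds. -/
def EB (G : MGraph V E) (ψ w : V → ℝ) (e : E) : Set ℝ :=
  Ico (ψ (G.fst e)) (ψ (G.snd e) - w (G.snd e)) ∪ Ico (ψ (G.snd e)) (ψ (G.fst e) - w (G.fst e))

theorem vol_VA (ψ w : V → ℝ) (hw : ∀ v, 0 ≤ w v) (β : ℝ) (v : V) :
    (volume.restrict (Ico (0:ℝ) β)).real (VA ψ w v) ≤ w v :=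
  vol_Ico β _ _ _ (by linarith) (hw v)

theorem vol_EB (G : MGraph V E) (ψ w : V → ℝ) (z : E → ℝ) (hw : ∀ v, 0 ≤ w v)
    (hz : ∀ e, 0 ≤ z e)
    (hstep : ∀ e x y, G.Joins e x y → ψ y ≤ ψ x + z e + w y) (β : ℝ) (e : E) :
    (volume.restrict (Ico (0:ℝ) β)).real (EB G ψ w e) ≤ z e := by
  have h1 := hstep e (G.fst e) (G.snd e) (Or.inl ⟨rfl, rfl⟩)
  have h2 := hstep e (G.snd e) (G.fst e) (Or.inr ⟨rfl, rfl⟩)
  have w1 := hw (G.fst e)
  have w2 := hw (G.snd e)
  unfold EB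
  by_cases h : ψ (G.fst e) < ψ (G.snd e) - w (G.snd e)
  · rw [show Ico (ψ (G.snd e)) (ψ (G.fst e) - w (G.fst e)) = ∅ from Ico_eq_empty (by
      intro hc; linarith)]
    rw [union_empty]
    exact vol_Ico β _ _ _ (by linarith) (hz e)
  · rw [show Ico (ψ (G.fst e)) (ψ (G.snd e) - w (G.snd e)) = ∅ from Ico_eq_empty h]
    rw [empty_union]
    exact vol_Ico β _ _ _ (by linarith) (hz e)

open Classical in
theorem disc_level [Fintype V] [Fintype E] (G : MGraph V E) (s t : V) (ψ w : V → ℝ)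
    (hws : w s = 0) (hwt : w t = 0) (hs : ψ s = 0) (τ : ℝ) (h0 : 0 ≤ τ) (ht : τ < ψ t) :
    G.Disc s t (Finset.univ.filter (fun v => τ ∈ VA ψ w v))
      (Finset.univ.filter (fun e => τ ∈ EB G ψ w e)) := by
  refine ⟨?_, ?_, ?_⟩
  · simp only [Finset.mem_filter, Finset.mem_univ, true_and, VA, mem_Ico, not_and, not_lt]
    intro _; rw [hs]; exact h0
  · simp only [Finset.mem_filter, Finset.mem_univ, true_and, VA, mem_Ico, not_and, not_lt]
    intro h; rw [hwt] at h; linarith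
  · intro r hr
    obtain ⟨p, hp, x, hj, hx, hy⟩ := exists_cross G ψ τ t ht r s hr.1 (by rw [hs]; exact h0)
    by_cases hc : ψ p.2 - w p.2 ≤ τ
    · left
      refine ⟨p, hp, ?_⟩
      simp only [Finset.mem_filter, Finset.mem_univ, true_and, VA, mem_Ico]
      exact ⟨hc, hy⟩
    · right
      push Not at hc
      refine ⟨p, hp, ?_⟩
      simp only [Finset.mem_filter, Finset.mem_univ, true_and, EB, mem_union, mem_Ico]
      rcases hj with ⟨h1, h2⟩ | ⟨h1, h2⟩
      · left; rw [h1, h2]; exact ⟨hx, hc⟩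
      · right; rw [h1, h2]; exact ⟨hx, hc⟩

open Classical in
theorem sum_ind {ι : Type*} [Fintype ι] (A : ι → Set ℝ) (τ : ℝ) :
    ∑ i, (A i).indicator (fun _ => (1:ℝ)) τ = ((Finset.univ.filter (fun i => τ ∈ A i)).card : ℝ) := by
  simp [Set.indicator_apply]

theorem dual_ineq [Fintype V] [Fintype E] (G : MGraph V E) (s t : V) (k l : ℕ) (hl : 1 ≤ l)
    (hmix : ∀ (W : Finset V) (F : Finset E), G.Disc s t W F → W.card ≤ k →
      k + l ≤ W.card + F.card)
    (z : E → ℝ) (w : V → ℝ) (hz : ∀ e, 0 ≤ z e) (hw : ∀ v, 0 ≤ w v) (hws : w s = 0) (hwt : w t = 0)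
    (β α : ℝ) (hβ : 0 ≤ β) (hα : 0 ≤ α) (hβp : ∀ r, G.IsPath s r t → β ≤ len z w r)
    (hαp : ∀ r, G.IsPath s r t → α ≤ len z (fun _ => 0) r) :
    ((k:ℝ) + 1) * β + ((l:ℝ) - 1) * α ≤ ∑ v, w v + ∑ e, z e := by
  classical
  have hl' : (1:ℝ) ≤ l := by exact_mod_cast hl
  have hk' : (0:ℝ) ≤ k := by positivity
  -- the first coarea system
  set ψ := psi G s z w β with hψ
  have ps : ψ s = 0 := psi_s G s z w β hz hw hβ
  have pt : ψ t = β := psi_t G s t z w β hz hw hβ hβp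
  have hstep : ∀ e x y, G.Joins e x y → ψ y ≤ ψ x + z e + w y :=
    fun e x y hj => psi_step G s z w β hz hw hβ e x y hj
  have mA : ∀ v, MeasurableSet (VA ψ w v) := fun v => measurableSet_Ico
  have mB : ∀ e, MeasurableSet (EB G ψ w e) := fun e => measurableSet_Ico.union measurableSet_Ico
  set I : Set ℝ := {τ | ∑ v, (VA ψ w v).indicator (fun _ => (1:ℝ)) τ ≤ k} with hI
  have mI : MeasurableSet I := by
    apply measurableSet_le
    · apply Finset.measurable_sum
      intro v _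
      exact measurable_const.indicator (mA v)
    · exact measurable_const
  set θ := (volume.restrict (Ico (0:ℝ) β)).real I with hθ
  have hpt : ∀ τ ∈ Ico (0:ℝ) β, τ ∈ I → ((k:ℝ) + l) ≤
      ∑ v, (VA ψ w v).indicator (fun _ => (1:ℝ)) τ + ∑ e, (EB G ψ w e).indicator (fun _ => (1:ℝ)) τ := by
    intro τ hτ hτI
    have hd := disc_level G s t ψ w hws hwt ps τ hτ.1 (by rw [pt]; exact hτ.2)
    have hτI' : ∑ v, (VA ψ w v).indicator (fun _ => (1:ℝ)) τ ≤ k := hτI
    rw [sum_ind] at hτI'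
    rw [sum_ind, sum_ind]
    have := hmix _ _ hd (by exact_mod_cast hτI')
    exact_mod_cast this
  have hpt2 : ∀ τ ∈ Ico (0:ℝ) β, τ ∉ I → ((k:ℝ) + 1) ≤
      ∑ v, (VA ψ w v).indicator (fun _ => (1:ℝ)) τ := by
    intro τ hτ hτI
    have hτI' : ¬ (∑ v, (VA ψ w v).indicator (fun _ => (1:ℝ)) τ ≤ k) := hτI
    rw [sum_ind] at hτI' ⊢
    push Not at hτI'
    have : k < (Finset.univ.filter (fun v => τ ∈ VA ψ w v)).card := by exact_mod_cast hτI'
    exact_mod_cast this
  have hFnn : ∀ τ : ℝ, 0 ≤ ∑ e, (EB G ψ w e).indicator (fun _ => (1:ℝ)) τ := by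
    intro τ; rw [sum_ind]; positivity
  have hWnn : ∀ τ : ℝ, 0 ≤ ∑ v, (VA ψ w v).indicator (fun _ => (1:ℝ)) τ := by
    intro τ; rw [sum_ind]; positivity
  have h1 := average β hβ (VA ψ w) (EB G ψ w) mA mB w z (vol_VA ψ w hw β)
    (vol_EB G ψ w z hw hz hstep β) I mI ((k:ℝ) + 1) ((l:ℝ) - 1) 1 1 (by norm_num) (by norm_num)
    (by
      intro τ hτ
      by_cases hτI : τ ∈ I
      · have := hpt τ hτ hτI
        rw [indicator_of_mem hτI]
        linarith
      · have := hpt2 τ hτ hτI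
        have h3 := hFnn τ
        rw [indicator_of_notMem hτI]
        linarith)
  have h2 := average β hβ (VA ψ w) (EB G ψ w) mA mB w z (vol_VA ψ w hw β)
    (vol_EB G ψ w z hw hz hstep β) I mI ((k:ℝ) + 1) (-((k:ℝ) + 1)) 1 0 (by norm_num) (by norm_num)
    (by
      intro τ hτ
      by_cases hτI : τ ∈ I
      · have := hWnn τ
        rw [indicator_of_mem hτI]
        linarith
      · have := hpt2 τ hτ hτI
        rw [indicator_of_notMem hτI]
        linarith)
  -- the second coarea system: w = 0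
  have h3 : ((k:ℝ) + l) * α ≤ ∑ e, z e := by
    set w0 : V → ℝ := fun _ => 0 with hw0
    have hw0' : ∀ v, 0 ≤ w0 v := fun v => le_refl _
    set ψ0 := psi G s z w0 α with hψ0
    have ps0 : ψ0 s = 0 := psi_s G s z w0 α hz hw0' hα
    have pt0 : ψ0 t = α := psi_t G s t z w0 α hz hw0' hα hαp
    have hstep0 : ∀ e x y, G.Joins e x y → ψ0 y ≤ ψ0 x + z e + w0 y :=
      fun e x y hj => psi_step G s z w0 α hz hw0' hα e x y hj
    have mA0 : ∀ v, MeasurableSet (VA ψ0 w0 v) := fun v => measurableSet_Ico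
    have mB0 : ∀ e, MeasurableSet (EB G ψ0 w0 e) := fun e => measurableSet_Ico.union measurableSet_Ico
    have h4 := average α hα (VA ψ0 w0) (EB G ψ0 w0) mA0 mB0 w0 z (vol_VA ψ0 w0 hw0' α)
      (vol_EB G ψ0 w0 z hw0' hz hstep0 α) I mI ((k:ℝ) + l) 0 0 1 (by norm_num) (by norm_num)
      (by
        intro τ hτ
        have hd := disc_level G s t ψ0 w0 rfl rfl ps0 τ hτ.1 (by rw [pt0]; exact hτ.2)
        have hWe : (Finset.univ.filter (fun v => τ ∈ VA ψ0 w0 v)) = ∅ := by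
          apply Finset.filter_eq_empty_iff.2
          intro v _ hv
          have := hv
          simp only [VA, hw0, mem_Ico, sub_zero] at this
          linarith [this.1, this.2]
        have := hmix _ _ hd (by rw [hWe]; simp)
        rw [hWe, Finset.card_empty, zero_add] at this
        rw [sum_ind (EB G ψ0 w0)]
        have h5 : ((k:ℝ) + l) ≤ ((Finset.univ.filter (fun e => τ ∈ EB G ψ0 w0 e)).card : ℝ) := by
          exact_mod_cast this
        linarith)
    linarith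
  rw [← hθ] at h1 h2
  have hθ0 : 0 ≤ θ := measureReal_nonneg
  rcases le_total α θ with hc | hc
  · nlinarith [mul_le_mul_of_nonneg_left hc (show (0:ℝ) ≤ (l:ℝ) - 1 by linarith)]
  · nlinarith [mul_le_mul_of_nonneg_left hc (show (0:ℝ) ≤ (k:ℝ) + 1 by linarith)]

end Pool.Agent.BHFrac
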